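import Pool.Agent.Helper51.GAdicGen

set_option autoImplicit false

namespace Pool.Agent.Results.MP_1a9025_nt.Blocks

open Pool.Agent.Helper51.GAdic

/-- If no part is cofinite and every part contains one block `{u, …, v}` of consecutive
integers with `d_{u+1} ⋯ d_{v+1} = g_{v+1} / g_u ≥ h + 1`, then `S(𝒢, W) = {0}`. -/
theorem result (h : ℕ) (g : ℕ → ℕ) (hg : IsGAdic g) (W : Fin h → Set ℕ) (hW : IsPartition W)
    (hinf : ∀ i, ((W i)ᶜ).Infinite)
    (hb : ∀ i, ∃ u v, u ≤ v ∧ (∀ q, u ≤ q → q ≤ v → q ∈ W i) ∧ h + 1 ≤ g (v + 1) / g u) :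
    S g W = {0} := by
  apply S_block hg hW hinf
  intro i
  obtain ⟨u, v, huv, hblk, hgr⟩ := hb i
  exact ⟨u, v, huv, hblk, (Nat.le_div_iff_mul_le (hg.pos u)).1 hgr⟩

end Pool.Agent.Results.MP_1a9025_nt.Blocks
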