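import Pool.Agent.Helper51.GAdicGen

set_option autoImplicit false

namespace Pool.Agent.Results.MP_1a9025_nt.CofinitePart

open Pool.Agent.Helper51.GAdic

/-- If some part of the partition is cofinite, then `S(𝒢, W)` is empty. -/
theorem result (h : ℕ) (g : ℕ → ℕ) (hg : IsGAdic g) (W : Fin h → Set ℕ) (hW : IsPartition W)
    (i : Fin h) (hfin : ((W i)ᶜ).Finite) : S g W = ∅ :=
  S_cofinite hg hW i hfin

end Pool.Agent.Results.MP_1a9025_nt.CofinitePart
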