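import Pool.Agent.Helper51.GAdicTwoMain

set_option autoImplicit false

namespace Pool.Agent.Results.MP_1a9025_nt.TwoParts

open Pool.Agent.Helper51.GAdic

/-- Complete determination of `S(𝒢, W)` for `h = 2`. Label the two parts so that `0 ∈ W i`,
and let `j` be the other index; `g (k + 1) / g k` is `d_{k+1}`. -/
theorem result (g : ℕ → ℕ) (hg : IsGAdic g) (W : Fin 2 → Set ℕ) (hW : IsPartition W)
    (i j : Fin 2) (hij : i ≠ j) (h0 : 0 ∈ W i) :
    (((W i).Infinite ∧ (W j).Infinite ∧
        ((∃ k ∈ W j, k + 1 ∈ W j ∨ 3 ≤ g (k + 1) / g k) ∨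
          (W i = {k | Even k} ∧ ∀ k, g (k + 1) / g k = 2))) → S g W = {0}) ∧
    ((W i = {k | Even k} ∧ g 1 / g 0 = 3 ∧ ∀ k, 1 ≤ k → g (k + 1) / g k = 2) →
      S g W = {0, 1}) ∧
    (¬ ((W i).Infinite ∧ (W j).Infinite ∧
        ((∃ k ∈ W j, k + 1 ∈ W j ∨ 3 ≤ g (k + 1) / g k) ∨
          (W i = {k | Even k} ∧ ∀ k, g (k + 1) / g k = 2))) →
      ¬ (W i = {k | Even k} ∧ g 1 / g 0 = 3 ∧ ∀ k, 1 ≤ k → g (k + 1) / g k = 2) →
      S g W = ∅) := by
  have e2 : ∀ k, g (k + 1) / g k = 2 ↔ g (k + 1) = 2 * g k := by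
    intro k
    constructor
    · intro h
      have := Nat.div_mul_cancel (hg.dvd k)
      rw [h] at this
      exact this.symm
    · intro h
      rw [h]
      exact Nat.mul_div_cancel _ (hg.pos k)
  have e3 : ∀ k, 3 ≤ g (k + 1) / g k ↔ 3 * g k ≤ g (k + 1) := by
    intro k
    exact Nat.le_div_iff_mul_le (hg.pos k)
  have e1 : g 1 / g 0 = 3 ↔ g 1 = 3 := by rw [hg.zero]; simp
  simp only [e2, e3, e1]
  refine ⟨?_, ?_, ?_⟩
  · rintro ⟨hi, hj, hv | ⟨hE, h2⟩⟩
    · exact S_case_one hg hW hij h0 hi hj hv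
    · exact S_case_two hg hW hij hE h2
  · rintro ⟨hE, h3, h2⟩
    exact S_case_three hg hW hij hE h3 h2
  · intro h1 h2
    by_cases hi : (W i).Infinite
    · by_cases hj : (W j).Infinite
      · have h3 : ¬ ((∃ k ∈ W j, k + 1 ∈ W j ∨ 3 * g k ≤ g (k + 1)) ∨
            (W i = {k | Even k} ∧ ∀ k, g (k + 1) = 2 * g k)) := fun h => h1 ⟨hi, hj, h⟩
        push Not at h3
        obtain ⟨h4, h5⟩ := h3
        have hbad : Bad g (W j) := by
          intro k hk
          obtain ⟨h6, h7⟩ := h4 k hk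
          refine ⟨h6, ?_⟩
          obtain ⟨d, hd⟩ := hg.dvd k
          have hp := hg.pos k
          have h8 := hg.two_mul_le k
          rw [hd] at h7 h8 ⊢
          have : 2 ≤ d := by
            by_contra hcon
            have : g k * d ≤ g k * 1 := Nat.mul_le_mul_left _ (by omega)
            omega
          have : d ≤ 2 := by
            by_contra hcon
            have : g k * 3 ≤ g k * d := Nat.mul_le_mul_left _ (by omega)
            omega
          have : d = 2 := by omega
          rw [this]; ring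
        refine S_case_four hg hW hij h0 hi hj hbad ?_ h2
        rintro ⟨hE, hall⟩
        obtain ⟨k, hk⟩ := h5 hE
        exact hk (hall k)
      · apply S_cofinite hg hW i
        have : (W i)ᶜ ⊆ W j := fun k hk => (mem_or hW hij k).resolve_left hk
        exact (Set.not_infinite.1 hj).subset this
    · apply S_cofinite hg hW j
      have : (W j)ᶜ ⊆ W i := fun k hk => (mem_or hW hij k).resolve_right hk
      exact (Set.not_infinite.1 hi).subset this

end Pool.Agent.Results.MP_1a9025_nt.TwoParts
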